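import Pool.Agent.helper36.NF.Spec

set_option autoImplicit false

open Polynomial Filter

namespace Pool.Agent.NoFormula

theorem KIL_bigprime (m q : ℕ) (hq : q.Prime) (h : q ∣ 2 ^ (2 ^ m) + 1) : m < q := by
  have hq2 : q ≠ 2 := by
    rintro rfl
    have h2 : 2 ∣ 2 ^ (2 ^ m) := dvd_pow_self 2 (pow_ne_zero m two_ne_zero)
    have h1 : 2 ∣ 1 := (Nat.dvd_add_right h2).mp h
    omega
  obtain ⟨k, hk⟩ := Nat.pow_pow_add_primeFactors_one_lt hq hq2 h
  have hk0 : k ≠ 0 := by
    rintro rfl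
    have := hq.two_le
    omega
  have h1 : m + 1 < 2 ^ (m + 1) := Nat.lt_two_pow_self
  have h2 : 1 * 2 ^ (m + 1) ≤ k * 2 ^ (m + 1) := Nat.mul_le_mul_right _ (Nat.one_le_iff_ne_zero.mpr hk0)
  omega

theorem KIL_period (f : ℕ → ℤ) (M q T : ℕ)
    (h : ∀ m : ℕ, M ≤ m → (q : ℤ) ∣ f (m + T) - f m) (m : ℕ) (hm : M ≤ m) (hf : (q : ℤ) ∣ f m) :
    ∀ j : ℕ, (q : ℤ) ∣ f (m + T * j) := by
  intro j
  induction j with
  | zero => simpa using hf
  | succ j ih =>
    have h1 := h (m + T * j) (by omega)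
    have h2 : m + T * (j + 1) = m + T * j + T := by ring
    rw [h2]
    have h3 := dvd_add h1 ih
    simpa using h3

theorem KIL_disjoint (m n q : ℕ) (hq : q.Prime) (hmn : m ≠ n)
    (h1 : (q : ℤ) ∣ 2 ^ (2 ^ m) + 1) (h2 : (q : ℤ) ∣ 2 ^ (2 ^ n) + 1) : False := by
  have a1 : q ∣ 2 ^ (2 ^ m) + 1 := by exact_mod_cast h1
  have a2 : q ∣ 2 ^ (2 ^ n) + 1 := by exact_mod_cast h2
  have hc := Nat.coprime_fermatNumber_fermatNumber hmn
  have := Nat.Coprime.eq_one_of_dvd (Nat.Coprime.coprime_dvd_left a1 hc) a2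
  exact hq.one_lt.ne' this

theorem KIL : KIL_stmt := by
  refine ⟨?_, ?_⟩
  · intro f hf a d hd
    obtain ⟨M, hM⟩ := hf
    by_cases hc : ∃ i : ℕ, M ≤ a + d * i ∧ f (a + d * i) ∣ 2 ^ (2 ^ (a + d * i)) + 1 ∧
        |f (a + d * i)| ≠ 1
    · obtain ⟨i, hi, hdv, hne⟩ := hc
      have hne' : (f (a + d * i)).natAbs ≠ 1 := by
        intro h
        apply hne
        rw [Int.abs_eq_natAbs, h]
        rfl
      obtain ⟨q, hq, hqf⟩ := Nat.exists_prime_and_dvd hne'
      have hqf' : (q : ℤ) ∣ f (a + d * i) := Int.natCast_dvd.mpr hqf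
      have hqF : (q : ℤ) ∣ 2 ^ (2 ^ (a + d * i)) + 1 := dvd_trans hqf' hdv
      have hqF' : q ∣ 2 ^ (2 ^ (a + d * i)) + 1 := by exact_mod_cast hqF
      have hbig := KIL_bigprime _ q hq hqF'
      obtain ⟨T, hT0, hT⟩ := hM q hq (by omega)
      refine ⟨a + d * i + d * T, d * T, Nat.mul_pos hd hT0, ?_, ?_⟩
      · intro j
        exact ⟨i + T + T * j, by ring⟩
      · intro j hdj
        exfalso
        have e1 : a + d * i + d * T + d * T * j = a + d * i + T * (d * (1 + j)) := by ring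
        have h1 := KIL_period f M q T hT (a + d * i) hi hqf' (d * (1 + j))
        rw [← e1] at h1
        refine KIL_disjoint (a + d * i) (a + d * i + d * T + d * T * j) q hq ?_ hqF
          (dvd_trans h1 hdj)
        have : 0 < d * T := Nat.mul_pos hd hT0
        omega
    · push Not at hc
      refine ⟨a + d * M, d, hd, ?_, ?_⟩
      · intro j
        exact ⟨M + j, by ring⟩
      · intro j hdj
        left
        have e1 : a + d * M + d * j = a + d * (M + j) := by ring
        have hle : M ≤ a + d * (M + j) := by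
          have : 1 * (M + j) ≤ d * (M + j) := Nat.mul_le_mul_right _ hd
          omega
        rw [e1] at hdj ⊢
        exact hc (M + j) hle hdj
  · intro f hf a d hd
    obtain ⟨M, hM⟩ := eventually_atTop.mp hf
    refine ⟨a + d * M, d, hd, ?_, ?_⟩
    · intro j
      exact ⟨M + j, by ring⟩
    · intro j hdj
      right
      have hle : M ≤ a + d * M + d * j := by
        have : 1 * M ≤ d * M := Nat.mul_le_mul_right _ hd
        omega
      exact hM _ hle hdj

end Pool.Agent.NoFormula
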